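import Pool.Agent.Helper886.Tower.Final

/-! # MP_e1f2e6_al, Q1: the negated form, with the definitions of the problem file

The group is a lattice of class 3 and Hirsch length 5 in the free nilpotent Lie group of class 3
and rank 2; all the groups `α G, α² G, α³ G, …` are pairwise non-isomorphic. -/

set_option autoImplicit false

namespace Pool.Agent.Results.MP_e1f2e6_al.TowerPairwiseNonisomorphic

open Pool.Agent.Helper886.Tower

/-- `A n` is (a copy of) `α^{n+1} G`, for every `n`: `A 0` is isomorphic to `Aut G` and `A (n+1)` is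
isomorphic to `Aut (A n)`. -/
def IsAutTower (G : Type) [Group G] (A : ℕ → Type) [∀ n, Group (A n)] : Prop :=
  Nonempty (A 0 ≃* MulAut G) ∧ ∀ n, Nonempty (A (n + 1) ≃* MulAut (A n))

/-- There is a finitely generated torsion-free nilpotent group `G` for which
`α G, α² G, α³ G, …` are pairwise non-isomorphic (and none of them is isomorphic to `G`). -/
theorem result :
    ∃ (G : Type) (_ : Group G), Group.FG G ∧ Group.IsNilpotent G ∧
      (∀ g : G, IsOfFinOrder g → g = 1) ∧
      (∃ (A : ℕ → Type) (_ : ∀ n, Group (A n)), IsAutTower G A) ∧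
      ∀ (A : ℕ → Type) [∀ n, Group (A n)], IsAutTower G A →
        (∀ n m, n ≠ m → IsEmpty (A n ≃* A m)) ∧ ∀ n, IsEmpty (A n ≃* G) := by
  refine ⟨GG, inferInstance, GG.fg, GG.nilpotent, ?_, ?_, ?_⟩
  · intro g hg
    obtain ⟨n, hn, h⟩ := isOfFinOrder_iff_pow_eq_one.mp hg
    exact GG.torsion_free g n hn.ne' h
  · exact ⟨fun n => (Tow (n + 1)).1, fun n => inferInstance,
      ⟨MulEquiv.refl (MulAut (Tow 0).1)⟩, fun n => ⟨MulEquiv.refl (MulAut (Tow (n + 1)).1)⟩⟩
  · intro A _ ⟨h0, h1⟩
    have key : ∀ n, Nonempty (A n ≃* (Tow (n + 1)).1) := by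
      intro n
      induction n with
      | zero =>
        obtain ⟨f⟩ := h0
        exact ⟨(f : A 0 ≃* MulAut GG)⟩
      | succ n ih =>
        obtain ⟨f⟩ := ih
        obtain ⟨g⟩ := h1 n
        exact ⟨g.trans (MulAut.congr f : MulAut (A n) ≃* MulAut (Tow (n + 1)).1)⟩
    refine ⟨?_, ?_⟩
    · intro n m hnm
      refine ⟨fun f => ?_⟩
      obtain ⟨a⟩ := key n
      obtain ⟨b⟩ := key m
      rcases lt_or_gt_of_ne hnm with h | h
      · exact not_iso (Nat.succ_lt_succ h) ⟨b.symm.trans (f.symm.trans a)⟩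
      · exact not_iso (Nat.succ_lt_succ h) ⟨a.symm.trans (f.trans b)⟩
    · intro n
      refine ⟨fun f => ?_⟩
      obtain ⟨a⟩ := key n
      exact not_iso (Nat.succ_pos n) ⟨a.symm.trans (f : A n ≃* (Tow 0).1)⟩

end Pool.Agent.Results.MP_e1f2e6_al.TowerPairwiseNonisomorphic
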